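import Pool.Agent.N682.MS.Stm

/-!
# Project MS, leaf GRP (helper897)
The group `G` as a subgroup of a metric product of symmetric groups.
-/

set_option autoImplicit false
set_option linter.unusedSectionVars false

namespace Pool.Agent.N897.MS.Grp

open Filter Topology
open Pool.Agent.N682.MS

section prop

variable {α : Type} [Fintype α]

/-- the proportion of a set -/
noncomputable def nb (S : Set α) : ℝ := (Nat.card S : ℝ) / Fintype.card α

theorem nb_nonneg (S : Set α) : 0 ≤ nb S := by
  unfold nb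
  positivity

theorem nb_mono {S T : Set α} (h : S ⊆ T) : nb S ≤ nb T := by
  unfold nb
  apply div_le_div_of_nonneg_right _ (Nat.cast_nonneg _)
  exact_mod_cast Nat.card_mono (Set.toFinite T) h

theorem nb_union (S T : Set α) : nb (S ∪ T) ≤ nb S + nb T := by
  unfold nb
  rw [← add_div]
  apply div_le_div_of_nonneg_right _ (Nat.cast_nonneg _)
  have := Set.ncard_union_le S T
  rw [Nat.card_coe_set_eq, Nat.card_coe_set_eq, Nat.card_coe_set_eq]
  exact_mod_cast this

theorem nb_preimage (p : Equiv.Perm α) (S : Set α) : nb (p ⁻¹' S) = nb S := by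
  unfold nb
  congr 2
  exact Nat.card_congr (p.subtypeEquiv (fun a => Iff.rfl))

end prop

section null

variable (X : ℕ → Type) [∀ m, Fintype (X m)]

/-- the asymptotically trivial sequences of permutations -/
noncomputable def Null : Subgroup (∀ m, Equiv.Perm (X m)) where
  carrier := {p | Tendsto (fun m => nb {y | p m y ≠ y}) atTop (𝓝 0)}
  one_mem' := by
    have : (fun m => nb {y : X m | (1 : ∀ m, Equiv.Perm (X m)) m y ≠ y}) = fun _ => 0 := by
      funext m
      simp [nb]
    rw [Set.mem_ofPred_eq, this]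
    exact tendsto_const_nhds
  mul_mem' := by
    intro a b ha hb
    rw [Set.mem_ofPred_eq] at ha hb ⊢
    have h := ha.add hb
    rw [add_zero] at h
    refine squeeze_zero (fun m => nb_nonneg _) (fun m => ?_) h
    have h1 : {y | (a * b) m y ≠ y} ⊆ (b m) ⁻¹' {y | a m y ≠ y} ∪ {y | b m y ≠ y} := by
      intro y hy
      by_contra hc
      simp only [Set.mem_union, Set.mem_preimage, Set.mem_ofPred_eq, not_or, not_not] at hc
      apply hy
      show a m (b m y) = y
      rw [hc.1, hc.2]
    calc nb {y | (a * b) m y ≠ y} ≤ _ := nb_mono h1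
      _ ≤ _ := nb_union _ _
      _ = _ := by rw [nb_preimage]
  inv_mem' := by
    intro a ha
    rw [Set.mem_ofPred_eq] at ha ⊢
    refine squeeze_zero (fun m => nb_nonneg _) (fun m => nb_mono ?_) ha
    intro y hy hc
    apply hy
    show (a m)⁻¹ y = y
    rw [Equiv.Perm.inv_eq_iff_eq, hc]

theorem mem_Null {p : ∀ m, Equiv.Perm (X m)} :
    p ∈ Null X ↔ Tendsto (fun m => nb {y | p m y ≠ y}) atTop (𝓝 0) := Iff.rfl

instance : (Null X).Normal where
  conj_mem := by
    intro a ha g
    rw [mem_Null] at ha ⊢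
    refine ha.congr (fun m => ?_)
    rw [← nb_preimage ((g m)⁻¹)]
    congr 1
    ext y
    simp only [Set.mem_preimage, Set.mem_ofPred_eq]
    show a m ((g m)⁻¹ y) ≠ (g m)⁻¹ y ↔ g m (a m ((g m)⁻¹ y)) ≠ y
    rw [not_iff_not, Equiv.Perm.eq_inv_iff_eq]

/-- being equal modulo null sequences -/
theorem mk_eq {a b : ∀ m, Equiv.Perm (X m)} :
    (QuotientGroup.mk a : (∀ m, Equiv.Perm (X m)) ⧸ Null X) = QuotientGroup.mk b ↔
      Tendsto (fun m => nb {y | b m y ≠ a m y}) atTop (𝓝 0) := by
  rw [QuotientGroup.eq, mem_Null]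
  have : ∀ m, {y | (a⁻¹ * b) m y ≠ y} = {y | b m y ≠ a m y} := by
    intro m
    ext y
    simp only [Set.mem_ofPred_eq]
    show (a m)⁻¹ (b m y) ≠ y ↔ b m y ≠ a m y
    rw [not_iff_not, Equiv.Perm.inv_eq_iff_eq]
  simp only [this]

end null

section main

variable (Q : ℕ → Type) [∀ m, Group (Q m)] [∀ m, Finite (Q m)]

/-- the sets -/
abbrev X (m : ℕ) : Type := Fin (m + 1) × Q m

noncomputable instance (m : ℕ) : Fintype (X Q m) := Fintype.ofFinite _

theorem nb_last (m : ℕ) : nb {y : X Q m | ¬ (y.1 : ℕ) < m} ≤ 1 / ((m : ℝ) + 1) := by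
  have h1 : Nat.card {y : X Q m | ¬ (y.1 : ℕ) < m} ≤ Nat.card (Q m) := by
    apply Nat.card_le_card_of_injective (fun y => y.1.2)
    rintro ⟨⟨j, q⟩, hj⟩ ⟨⟨j', q'⟩, hj'⟩ h
    simp only at h
    simp only [Set.mem_ofPred_eq] at hj hj'
    have e1 : j = j' := by
      apply Fin.ext
      have := j.2
      have := j'.2
      omega
    subst h
    subst e1
    rfl
  unfold nb
  have h2 : Fintype.card (X Q m) = (m + 1) * Nat.card (Q m) := by
    rw [← Nat.card_eq_fintype_card, Nat.card_prod, Nat.card_eq_fintype_card, Fintype.card_fin]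
  rw [h2]
  have h3 : 0 < Nat.card (Q m) := Nat.card_pos
  have h4 : (0 : ℝ) < Nat.card (Q m) := by exact_mod_cast h3
  have h5 : (Nat.card {y : X Q m | ¬ (y.1 : ℕ) < m} : ℝ) ≤ Nat.card (Q m) := by exact_mod_cast h1
  push_cast
  rw [div_le_div_iff₀ (by positivity) (by positivity)]
  nlinarith

theorem tends_last : Tendsto (fun m : ℕ => 1 / ((m : ℝ) + 1)) atTop (𝓝 0) :=
  tendsto_one_div_add_atTop_nhds_zero_nat

/-- sequences which agree off the last level -/
theorem mk_eq_of {a b : ∀ m, Equiv.Perm (X Q m)}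
    (h : ∀ m (y : X Q m), (y.1 : ℕ) < m → b m y = a m y) :
    (QuotientGroup.mk a : (∀ m, Equiv.Perm (X Q m)) ⧸ Null (X Q)) = QuotientGroup.mk b := by
  rw [mk_eq]
  refine squeeze_zero (fun m => nb_nonneg _) (fun m => ?_) tends_last
  refine (nb_mono ?_).trans (nb_last Q m)
  intro y hy hc
  exact hy (h m y hc)

variable {Γ : Type} [Group Γ] (f : ∀ m, ℕ → (Γ →* Q m))

/-- the action of `Γ` -/
def iP : Γ →* (∀ m, Equiv.Perm (X Q m)) where
  toFun x m :=
    { toFun := fun y => (y.1, f m y.1 x * y.2)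
      invFun := fun y => (y.1, (f m y.1 x)⁻¹ * y.2)
      left_inv := fun y => by simp
      right_inv := fun y => by simp }
  map_one' := by
    funext m
    ext y <;> simp
  map_mul' x y := by
    funext m
    ext z <;> simp [mul_assoc]

theorem iP_apply (x : Γ) (m : ℕ) (y : X Q m) : iP Q f x m y = (y.1, f m y.1 x * y.2) := rfl

/-- the shift -/
def tau (m : ℕ) : Equiv.Perm (X Q m) := Equiv.prodCongr (finRotate (m + 1)) (Equiv.refl _)

theorem tau_apply (m : ℕ) (y : X Q m) (h : (y.1 : ℕ) < m) :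
    tau Q m y = (⟨y.1 + 1, by omega⟩, y.2) := by
  unfold tau
  rw [Equiv.prodCongr_apply]
  rcases y with ⟨⟨j, hj⟩, q⟩
  simp only [Prod.map, Equiv.refl_apply]
  rw [finRotate_of_lt h]

/-- the ambient group -/
abbrev MM : Type := ((∀ m, Equiv.Perm (X Q m)) ⧸ Null (X Q)) × Multiplicative ℤ

/-- the homomorphism to the ambient group -/
noncomputable def io : Γ →* MM Q :=
  ((QuotientGroup.mk' (Null (X Q))).comp (iP Q f)).prod 1

/-- the stable letter -/
noncomputable def tt : MM Q := (QuotientGroup.mk (tau Q), Multiplicative.ofAdd 1)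

variable {k : ℕ} (γ : FreeGroup (Fin k) →* Γ)

/-- the homomorphism from the free group -/
noncomputable def FF : FreeGroup (Option (Fin k)) →* MM Q :=
  FreeGroup.lift (fun s => s.elim (tt Q) (fun i => io Q f (γ (FreeGroup.of i))))

theorem FF_some (w : FreeGroup (Fin k)) : FF Q f γ (FreeGroup.map some w) = io Q f (γ w) := by
  have : (FF Q f γ).comp (FreeGroup.map some) = (io Q f).comp γ := by
    ext i
    · simp [FF]
    · simp [FF]
  exact congrArg (fun φ : FreeGroup (Fin k) →* MM Q => φ w) this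

theorem FF_none : FF Q f γ (FreeGroup.of none) = tt Q := by
  simp [FF]

/-- the group -/
abbrev GG : Type := (FF Q f γ).range

variable (hγ : Function.Surjective γ)

/-- the homomorphism into the group -/
noncomputable def iota : Γ →* GG Q f γ := (io Q f).codRestrict (FF Q f γ).range (by
  intro x
  obtain ⟨w, rfl⟩ := hγ x
  exact ⟨FreeGroup.map some w, FF_some Q f γ w⟩)

theorem iota_val (x : Γ) : (iota Q f γ hγ x : MM Q) = io Q f x := rfl

/-- the stable letter -/
noncomputable def st : GG Q f γ := ⟨tt Q, ⟨FreeGroup.of none, FF_none Q f γ⟩⟩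

/-- the exponent -/
noncomputable def ee : GG Q f γ →* Multiplicative ℤ :=
  (MonoidHom.snd _ _).comp (FF Q f γ).range.subtype

theorem gen_mem (g : GG Q f γ) : (QuotientGroup.mk g :
    GG Q f γ ⧸ Subgroup.normalClosure (Set.range (iota Q f γ hγ))) ∈
      Subgroup.zpowers (QuotientGroup.mk (st Q f γ)) := by
  obtain ⟨w, rfl⟩ := (FF Q f γ).rangeRestrict_surjective g
  induction w using FreeGroup.induction_on with
  | C1 =>
    rw [map_one]
    exact Subgroup.one_mem _
  | of s =>
    rcases s with _ | i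
    · have : (FF Q f γ).rangeRestrict (FreeGroup.of none) = st Q f γ :=
        Subtype.ext (FF_none Q f γ)
      show (QuotientGroup.mk ((FF Q f γ).rangeRestrict (FreeGroup.of none)) :
        GG Q f γ ⧸ Subgroup.normalClosure (Set.range (iota Q f γ hγ))) ∈ _
      rw [this]
      exact Subgroup.mem_zpowers _
    · have : (FF Q f γ).rangeRestrict (FreeGroup.of (some i)) =
          iota Q f γ hγ (γ (FreeGroup.of i)) := by
        apply Subtype.ext
        have := FF_some Q f γ (FreeGroup.of i)
        rw [FreeGroup.map.of] at this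
        exact this
      have h2 : (QuotientGroup.mk ((FF Q f γ).rangeRestrict (FreeGroup.of (some i))) :
          GG Q f γ ⧸ Subgroup.normalClosure (Set.range (iota Q f γ hγ))) = 1 := by
        rw [this, QuotientGroup.eq_one_iff]
        exact Subgroup.subset_normalClosure ⟨_, rfl⟩
      show (QuotientGroup.mk ((FF Q f γ).rangeRestrict (FreeGroup.of (some i))) :
        GG Q f γ ⧸ Subgroup.normalClosure (Set.range (iota Q f γ hγ))) ∈ _
      rw [h2]
      exact Subgroup.one_mem _
  | inv_of s h =>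
    rw [map_inv, QuotientGroup.mk_inv]
    exact Subgroup.inv_mem _ h
  | mul x y hx hy =>
    rw [map_mul, QuotientGroup.mk_mul]
    exact Subgroup.mul_mem _ hx hy

theorem ker_ee (g : GG Q f γ) (h : ee Q f γ g = 1) :
    g ∈ Subgroup.normalClosure (Set.range (iota Q f γ hγ)) := by
  obtain ⟨n, hn⟩ := Subgroup.mem_zpowers_iff.1 (gen_mem Q f γ hγ g)
  rw [← QuotientGroup.mk_zpow, QuotientGroup.eq] at hn
  have hle : Subgroup.normalClosure (Set.range (iota Q f γ hγ)) ≤ (ee Q f γ).ker := by
    apply Subgroup.normalClosure_le_normal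
    rintro _ ⟨x, rfl⟩
    rw [SetLike.mem_coe, MonoidHom.mem_ker]
    rfl
  have h1 := MonoidHom.mem_ker.1 (hle hn)
  rw [map_mul, map_inv, map_zpow, h, mul_one] at h1
  have h2 : ee Q f γ (st Q f γ) = Multiplicative.ofAdd 1 := rfl
  rw [h2, inv_eq_one, ← ofAdd_zsmul, smul_eq_mul, mul_one] at h1
  have h3 : n = 0 := h1
  rw [h3, zpow_zero, inv_one, one_mul] at hn
  exact hn

end main

theorem t_grp : S_GRP := by
  intro Γ _ k γ hγ Φ l x0 Q _ _ f hD
  refine ⟨GG Q f γ, inferInstance, ?_, iota Q f γ hγ, st Q f γ, ee Q f γ, ?_, ?_, ?_, rfl,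
    fun x => rfl, ker_ee Q f γ hγ, X Q, inferInstance, fun m => inferInstance,
    fun m g => Quotient.out g.1.1 m, ?_, ?_⟩
  · exact (FF Q f γ).rangeRestrict_surjective.countable
  · intro x
    apply Subtype.ext
    apply Prod.ext
    · show (QuotientGroup.mk ((tau Q)⁻¹ * iP Q f x * tau Q) :
        (∀ m, Equiv.Perm (X Q m)) ⧸ Null (X Q)) = QuotientGroup.mk (iP Q f (Φ x))
      apply mk_eq_of
      intro m y hy
      show iP Q f (Φ x) m y = (tau Q m)⁻¹ (iP Q f x m (tau Q m y))
      rw [Equiv.Perm.eq_inv_iff_eq, tau_apply Q m y hy, iP_apply, iP_apply,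
        tau_apply Q m _ (by exact hy)]
      simp only
      rw [hD.shift m y.1 x hy]
    · show (Multiplicative.ofAdd (1 : ℤ))⁻¹ * 1 * Multiplicative.ofAdd 1 = 1
      rw [mul_one, inv_mul_cancel]
  · intro x
    apply Subtype.ext
    apply Prod.ext
    · show (QuotientGroup.mk (iP Q f l * iP Q f (Φ x)) :
        (∀ m, Equiv.Perm (X Q m)) ⧸ Null (X Q)) = QuotientGroup.mk (iP Q f (Φ x) * iP Q f l)
      apply mk_eq_of
      intro m y hy
      rw [← map_mul, ← map_mul, iP_apply, iP_apply, map_mul, map_mul, hD.comm m y.1 x hy]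
    · rfl
  · intro x
    obtain ⟨x', hx', h⟩ := hD.gen x
    refine ⟨x', hx', ?_⟩
    apply Subtype.ext
    apply Prod.ext
    · show (QuotientGroup.mk (iP Q f x) :
        (∀ m, Equiv.Perm (X Q m)) ⧸ Null (X Q)) = QuotientGroup.mk (iP Q f x')
      apply mk_eq_of
      intro m y hy
      rw [iP_apply, iP_apply, h m y.1 hy]
    · rfl
  · intro g h
    have h1 : (QuotientGroup.mk (Quotient.out g.1.1 * Quotient.out h.1.1) :
        (∀ m, Equiv.Perm (X Q m)) ⧸ Null (X Q)) = QuotientGroup.mk (Quotient.out (g * h).1.1) := by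
      rw [QuotientGroup.mk_mul, QuotientGroup.out_eq', QuotientGroup.out_eq',
        QuotientGroup.out_eq']
      rfl
    rw [mk_eq] at h1
    exact h1
  · obtain ⟨x, hx⟩ := hD.nontriv
    refine ⟨x, fun hc => ?_⟩
    have h1 : Quotient.out (iota Q f γ hγ x).1.1 ∈ Null (X Q) := hc
    have h2 : iP Q f x ∈ Null (X Q) := by
      rw [← QuotientGroup.eq_one_iff] at h1 ⊢
      rw [QuotientGroup.out_eq'] at h1
      exact h1
    rw [mem_Null] at h2
    have h3 := h2.add (tends_last)
    rw [add_zero] at h3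
    have h4 : (1 : ℝ) ≤ 0 := by
      refine ge_of_tendsto' h3 (fun m => ?_)
      have h5 : (1 : ℝ) = nb (Set.univ : Set (X Q m)) := by
        unfold nb
        rw [Nat.card_univ, Nat.card_eq_fintype_card, div_self]
        have : 0 < Fintype.card (X Q m) := Fintype.card_pos
        positivity
      have h6 : (Set.univ : Set (X Q m)) ⊆ {y | iP Q f x m y ≠ y} ∪
          {y : X Q m | ¬ (y.1 : ℕ) < m} := by
        intro y _
        by_contra hc
        simp only [Set.mem_union, Set.mem_ofPred_eq, not_or, not_not] at hc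
        obtain ⟨hc1, hc2⟩ := hc
        rw [iP_apply] at hc1
        have h7 := congrArg Prod.snd hc1
        simp only [mul_eq_right] at h7
        exact hx m y.1 hc2 h7
      exact h5.le.trans ((nb_mono h6).trans ((nb_union _ _).trans
        (add_le_add le_rfl (nb_last Q m))))
    linarith

end Pool.Agent.N897.MS.Grp
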