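import Pool.Agent.N897.MS.Sel2c
import Pool.Agent.W109.GA.Fin

set_option autoImplicit false

/-! Project MS (helper912), MS3: the sieve bound with phases. -/

namespace Pool.Agent.N897.MS.Sel2

open Finset Filter
open Pool.Agent.H376R2.MR (ch er FR FK cell)
open Pool.Agent.W78.GA
open Pool.Agent.W194.GA
open Pool.Agent.N912.MS (Gi ph chi nrm gq S_EXP2 S_SEL2)
open Pool.Agent.H970R2.X (cellP P1)

theorem nrm_mul (m : ℤ) (κ : ℤ × ℤ) : nrm (m * κ.1, m * κ.2) = m ^ 2 * nrm κ := by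
  unfold nrm
  simp only
  rw [mul_pow, mul_pow]
  exact (mul_max_of_nonneg _ _ (sq_nonneg m)).symm

theorem sel2 (h : S_EXP2) : S_SEL2 := by
  classical
  obtain ⟨C₂, hC₂, hsel⟩ := Pool.Agent.W109.GA.selb (t := 0) (c := 1) hD1
  refine ⟨1024 * Real.pi * C₂ + 1, by positivity, fun M' H R hH hR => ?_⟩
  have hHpos : (0 : ℝ) < H := by exact_mod_cast hH
  have hH1 : (1 : ℝ) ≤ H := by exact_mod_cast hH
  have hRpos : (0 : ℝ) < R := by exact_mod_cast hR
  obtain ⟨η, hη, C₁, hC₁, hpart⟩ := part h (2 * M' + 4)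
  set kk : ℝ := 128 with hkk
  have hkk0 : 0 < kk := by norm_num [hkk]
  set δ : ℝ := η / (2 * H) with hδ
  have hδ0 : 0 < δ := by positivity
  have hev1 := ev_small (2 * R * C₁) δ (by positivity) hδ0
  have hev2 : ∀ᶠ v : ℕ in atTop, (R : ℝ) ≤ Real.exp ((v : ℝ) / H) := by
    have h1 : Tendsto (fun v : ℕ => Real.exp ((v : ℝ) / H)) atTop atTop :=
      Real.tendsto_exp_atTop.comp (tendsto_natCast_atTop_atTop.atTop_div_const hHpos)
    exact h1.eventually_ge_atTop _
  have hev3 : ∀ᶠ v : ℕ in atTop, (2 : ℝ) ≤ Real.exp ((v : ℝ) / (kk * H)) := by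
    have h1 : Tendsto (fun v : ℕ => Real.exp ((v : ℝ) / (kk * H))) atTop atTop :=
      Real.tendsto_exp_atTop.comp (tendsto_natCast_atTop_atTop.atTop_div_const (by positivity))
    exact h1.eventually_ge_atTop _
  have hev4 : ∀ᶠ v : ℕ in atTop, Real.log 2 ≤ (v : ℝ) / (2 * kk * H) := by
    have h1 : Tendsto (fun v : ℕ => (v : ℝ) / (2 * kk * H)) atTop atTop :=
      tendsto_natCast_atTop_atTop.atTop_div_const (by positivity)
    exact h1.eventually_ge_atTop _
  obtain ⟨v₀, hv₀⟩ := eventually_atTop.1 (hev1.and (hev2.and (hev3.and (hev4.and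
    (eventually_ge_atTop 4)))))
  refine ⟨2 * R * H, v₀, fun v hv κ hκ0 hκ φ => ?_⟩
  obtain ⟨h1, h2, h3, h4, h5⟩ := hv₀ v hv
  have hv4 : (4 : ℝ) ≤ v := by exact_mod_cast h5
  have hvpos : (0 : ℝ) < v := by linarith
  set D : ℕ := ⌊Real.exp ((v : ℝ) / (kk * H))⌋₊ with hDdef
  have hD2 : 2 ≤ D := by
    rw [hDdef]
    exact Nat.le_floor (by exact_mod_cast h3)
  have hDle : (D : ℝ) ≤ Real.exp ((v : ℝ) / (kk * H)) := Nat.floor_le (Real.exp_pos _).le
  have hDge : Real.exp ((v : ℝ) / (kk * H)) / 2 ≤ D := by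
    have := Nat.lt_floor_add_one (Real.exp ((v : ℝ) / (kk * H)))
    rw [← hDdef] at this
    linarith
  have hlogD1 : (v : ℝ) / (2 * kk * H) ≤ Real.log D := by
    have h6 := Real.log_le_log (by positivity) hDge
    rw [Real.log_div (Real.exp_pos _).ne' (by norm_num), Real.log_exp] at h6
    have h7 : (v : ℝ) / (kk * H) = (v : ℝ) / (2 * kk * H) + (v : ℝ) / (2 * kk * H) := by
      field_simp
      norm_num
    linarith
  have hDpos : (0 : ℝ) < D := by
    have : 0 < D := by omega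
    exact_mod_cast this
  have hkH1 : 1 ≤ kk * H := by
    rw [hkk]
    linarith
  have hlogD2 : Real.log D ≤ v := by
    have h6 := Real.log_le_log hDpos hDle
    rw [Real.log_exp] at h6
    exact le_trans h6 (div_le_self hvpos.le hkH1)
  have hlogDpos : 0 < Real.log D := lt_of_lt_of_le (by positivity) hlogD1
  obtain ⟨l, hl1, hl, hlD, hSel0, hSel1⟩ := hsel D hD2
  have hlG : ∀ d, l d ≠ 0 → Squarefree d ∧ ∀ p : ℕ, p.Prime → p ∣ d → Sp 0 1 p :=
    fun d hd => (hlD d hd).2.2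
  set A : ℝ := Real.exp (((v : ℝ) - 1) / H) with hA
  set B : ℝ := Real.exp (((v : ℝ) + 1) / H) with hB
  have hApos : 0 < A := Real.exp_pos _
  have hBpos : 0 < B := Real.exp_pos _
  have hcell : ∀ p ∈ cellP (P1 4) H v, p.Prime ∧ p % 4 = 1 ∧ D < p ∧ A < (p : ℝ) ∧
      (p : ℝ) ≤ B := by
    intro p hp
    unfold cellP cell at hp
    rw [mem_filter, mem_filter] at hp
    obtain ⟨⟨_, hpp, hlog1, hlog2⟩, hp4⟩ := hp
    have hp0 : (0 : ℝ) < p := by exact_mod_cast hpp.pos
    have h6 := (Real.le_log_iff_exp_le hp0).1 hlog1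
    have h7 := (Real.log_lt_iff_lt_exp hp0).1 hlog2
    have h8 : (D : ℝ) < p := by
      refine lt_of_le_of_lt hDle (lt_of_lt_of_le ?_ h6)
      rw [Real.exp_lt_exp]
      refine div_lt_div_of_pos_left hvpos hHpos ?_
      rw [hkk]
      linarith
    refine ⟨hpp, ?_, by exact_mod_cast h8, ?_, h7.le⟩
    · unfold P1 at hp4
      simpa using hp4
    · refine lt_of_lt_of_le ?_ h6
      rw [hA, Real.exp_lt_exp]
      exact div_lt_div_of_pos_right (by linarith) hHpos
  set E1 : ℝ := C₁ * Real.exp (-(δ * v)) with hE1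
  have hlogBA : Real.log B - Real.log A = 2 / H := by
    rw [hA, hB, Real.log_exp, Real.log_exp]
    ring
  have hD4 : (D : ℝ) ^ 4 ≤ Real.exp ((v : ℝ) / (32 * H)) := by
    calc (D : ℝ) ^ 4 ≤ Real.exp ((v : ℝ) / (kk * H)) ^ 4 := pow_le_pow_left₀ hDpos.le hDle _
      _ = Real.exp (4 * ((v : ℝ) / (kk * H))) := by
          rw [← Real.exp_nat_mul]
          norm_num
      _ = Real.exp ((v : ℝ) / (32 * H)) := by
          congr 1
          rw [hkk]
          field_simp
          norm_num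
  -- the base estimate
  have hbase : ∀ (d : ℕ) (r : ℤ) (n : ℕ), 1 ≤ d → 1 ≤ n → Nat.Coprime d n →
      (d : ℤ) ∣ r ^ 2 - 0 * r + 1 → (d : ℝ) * (n : ℝ) ^ 2 ≤ (D : ℝ) ^ 4 →
      |∑ z ∈ SS 0 1 A B ∅ d r n, FF2 R κ φ z - rho R κ φ A B / (d * (n : ℝ) ^ 2)| ≤
        (2 * R * E1) / (d * (n : ℝ) ^ 2) := by
    intro d r n hd hn hdn hr hQ
    have hd0 : (0 : ℝ) < d := by exact_mod_cast hd
    have hn0 : (0 : ℝ) < n := by exact_mod_cast hn
    have hq0 : (0 : ℝ) < (d : ℝ) * (n : ℝ) ^ 2 := by positivity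
    have hqD : (d : ℝ) * (n : ℝ) ^ 2 ≤ Real.exp ((v : ℝ) / (32 * H)) := hQ.trans hD4
    refine base A B hApos hBpos R hR κ φ d r n hd hn hdn hr E1 (by positivity) ?_
    intro m hm
    set A' : ℝ := A / (d * (n : ℝ) ^ 2) with hA'
    set B' : ℝ := B / (d * (n : ℝ) ^ 2) with hB'
    have hA1 : Real.exp ((v : ℝ) / (2 * H)) ≤ A' := by
      rw [hA', le_div_iff₀ hq0]
      calc Real.exp ((v : ℝ) / (2 * H)) * ((d : ℝ) * (n : ℝ) ^ 2) ≤
            Real.exp ((v : ℝ) / (2 * H)) * Real.exp ((v : ℝ) / (32 * H)) := by gcongr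
        _ = Real.exp ((v : ℝ) / (2 * H) + (v : ℝ) / (32 * H)) := by rw [Real.exp_add]
        _ ≤ A := by
            rw [hA, Real.exp_le_exp]
            have h8 : (v : ℝ) / (2 * H) + (v : ℝ) / (32 * H) = (17 * v / 32) / H := by
              field_simp
              norm_num
            rw [h8]
            exact div_le_div_of_nonneg_right (by linarith) hHpos.le
    have hA'1 : 1 ≤ A' := le_trans (Real.one_le_exp (by positivity)) hA1
    have hA'0 : 0 < A' := by linarith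
    have hAB : A' ≤ B' := by
      refine div_le_div_of_nonneg_right ?_ (by positivity)
      rw [hA, hB, Real.exp_le_exp]
      exact div_le_div_of_nonneg_right (by linarith) hHpos.le
    have hBA : B' ≤ Real.exp 2 * A' := by
      rw [hA', hB', ← mul_div_assoc]
      refine div_le_div_of_nonneg_right ?_ (by positivity)
      rw [hA, hB, ← Real.exp_add, Real.exp_le_exp]
      have h7 : ((v : ℝ) + 1) / H = ((v : ℝ) - 1) / H + 2 / H := by ring
      rw [h7]
      have h8 : 2 / (H : ℝ) ≤ 2 := div_le_self (by norm_num) hH1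
      linarith
    have hmR : |(m : ℝ)| ≤ R := by
      unfold FK at hm
      rw [Finset.mem_Ioo] at hm
      rw [abs_le]
      constructor
      · have := hm.1.le
        exact_mod_cast this
      · have := hm.2.le
        exact_mod_cast this
    have hnrm : ((nrm (m * κ.1, m * κ.2) : ℤ) : ℝ) ≤ A' ^ (2 * M' + 4) := by
      rw [nrm_mul]
      push_cast
      have e1 : (m : ℝ) ^ 2 ≤ Real.exp ((v : ℝ) / H) ^ 2 := by
        rw [← sq_abs]
        exact pow_le_pow_left₀ (abs_nonneg _) (hmR.trans h2) 2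
      have e2 : (0 : ℝ) ≤ (nrm κ : ℝ) := by
        have : 0 ≤ nrm κ := le_max_of_le_left (sq_nonneg _)
        exact_mod_cast this
      calc (m : ℝ) ^ 2 * (nrm κ : ℝ) ≤ Real.exp ((v : ℝ) / H) ^ 2 * Real.exp (M' * (v : ℝ) / H) :=
            mul_le_mul e1 hκ e2 (by positivity)
        _ = Real.exp ((v : ℝ) / (2 * H)) ^ (2 * M' + 4) := by
            rw [← Real.exp_nat_mul, ← Real.exp_nat_mul, ← Real.exp_add]
            congr 1
            push_cast
            field_simp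
            ring
        _ ≤ _ := pow_le_pow_left₀ (Real.exp_pos _).le hA1 _
    refine (hpart A' B' (m * κ.1, m * κ.2) hA'1 hAB hBA hnrm).trans ?_
    rw [hE1]
    refine mul_le_mul_of_nonneg_left ?_ hC₁.le
    rw [Real.rpow_neg hA'0.le]
    have h7 : Real.exp (δ * v) ≤ A' ^ η := by
      calc Real.exp (δ * v) = Real.exp ((v : ℝ) / (2 * H) * η) := by
            congr 1
            rw [hδ]
            ring
        _ = Real.exp ((v : ℝ) / (2 * H)) ^ η := by rw [Real.exp_mul]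
        _ ≤ _ := Real.rpow_le_rpow (Real.exp_pos _).le hA1 hη.le
    calc (A' ^ η)⁻¹ ≤ (Real.exp (δ * v))⁻¹ := inv_anti₀ (Real.exp_pos _) h7
      _ = _ := by rw [Real.exp_neg]
  have hErr0 : 0 ≤ 2 * R * E1 := by positivity
  have hind := SS_ind hD1 (FF2 R κ φ) A B (rho R κ φ A B) (2 * R * E1) ((D : ℝ) ^ 4) hErr0 hbase
  have hY : ∀ L : ℕ, Squarefree L → (∀ p : ℕ, p.Prime → p ∣ L → Sp 0 1 p) → L ≤ D ^ 2 →
      |∑ z ∈ (ann 0 1 A B).filter (fun z => L ∣ nm z), FF2 R κ φ z - rho R κ φ A B * gd L| ≤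
        (2 * R * E1) * hh 3 L := by
    intro L hL1 hL2 hL3
    have h6 := hind L.primeFactors
      (fun p hp => hL2 p (Nat.prime_of_mem_primeFactors hp) (Nat.dvd_of_mem_primeFactors hp))
      1 0 1 le_rfl le_rfl (Nat.coprime_one_left 1) (by simp)
      (fun p hp => by
        have := (Nat.prime_of_mem_primeFactors hp).one_lt
        refine ⟨?_, ?_⟩ <;> (intro h; have := Nat.le_of_dvd one_pos h; omega))
      (by
        rw [prod_sq hL1]
        have h7 : (L : ℝ) ≤ (D : ℝ) ^ 2 := by exact_mod_cast hL3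
        calc ((1 : ℕ) : ℝ) * ((1 : ℕ) : ℝ) ^ 2 * (L : ℝ) ^ 2 = (L : ℝ) ^ 2 := by norm_num
          _ ≤ ((D : ℝ) ^ 2) ^ 2 := pow_le_pow_left₀ (Nat.cast_nonneg _) h7 2
          _ = (D : ℝ) ^ 4 := by ring)
    rw [prod_three hL1] at h6
    have e1 : SS 0 1 A B L.primeFactors 1 0 1 = (ann 0 1 A B).filter (fun z => L ∣ nm z) := by
      unfold SS
      refine filter_congr (fun z _ => ?_)
      rw [dvd_iff_primeFactors hL1]
      constructor
      · exact fun h => h.1
      · intro h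
        refine ⟨h, ?_, ?_⟩
        · unfold lat
          simp
        · simp
    have e2 : ((1 : ℕ) : ℝ) * ((1 : ℕ) : ℝ) ^ 2 = 1 := by norm_num
    rw [e1, e2, div_one, div_one] at h6
    exact h6
  have hmain := sel_main2 H v R D κ φ A B l hl1 hl hlG (by omega) hcell (rho R κ φ A B)
    (2 * R * E1) hErr0 hY
  refine hmain.trans ?_
  have hrho := rho_le R H hR hH κ hκ0 φ A B hlogBA
  have hp1 : rho R κ φ A B *
      (∑ d ∈ Icc 1 D, ∑ e ∈ Icc 1 D, l d * l e * gd (Nat.lcm d e)) ≤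
      1024 * Real.pi * C₂ / v := by
    have h7 : C₂ / Real.log D ≤ C₂ / ((v : ℝ) / (2 * kk * H)) :=
      div_le_div_of_nonneg_left (by positivity) (by positivity) hlogD1
    calc _ ≤ (4 * Real.pi / H) * (∑ d ∈ Icc 1 D, ∑ e ∈ Icc 1 D, l d * l e * gd (Nat.lcm d e)) :=
          mul_le_mul_of_nonneg_right hrho hSel0
      _ ≤ (4 * Real.pi / H) * (C₂ / ((v : ℝ) / (2 * kk * H))) :=
          mul_le_mul_of_nonneg_left (hSel1.trans h7) (by positivity)
      _ = _ := by
          rw [hkk]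
          field_simp
          norm_num
  have hp2 : (2 * R * E1) * (1 + Real.log D) ^ 9 ≤ 1 / v := by
    refine le_trans ?_ h1
    have h6 : 2 * R * E1 = (2 * R * C₁) * Real.exp (-(δ * v)) := by
      rw [hE1]
      ring
    rw [h6]
    refine mul_le_mul_of_nonneg_left ?_ (by positivity)
    exact pow_le_pow_left₀ (by linarith) (by linarith) 9
  calc _ ≤ 1024 * Real.pi * C₂ / v + 1 / v := add_le_add hp1 hp2
    _ = _ := by ring

end Pool.Agent.N897.MS.Sel2
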