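import Pool.Agent.N912.MS.Stm

set_option autoImplicit false

/-! Project MS (helper912), MS3: partial summation with a main term. -/

namespace Pool.Agent.N897.MS.Sel2

open Finset Filter MeasureTheory
open Pool.Agent.H376R2.MR (ch)

/-- `∫_A^B t^(-1-iλ) dt` -/
noncomputable def J (l : ℤ) (A B : ℝ) : ℂ :=
  if l = 0 then ((Real.log B - Real.log A : ℝ) : ℂ)
  else (ch l (Real.log A) - ch l (Real.log B)) / (l * Complex.I)

theorem norm_ch (l : ℤ) (x : ℝ) : ‖ch l x‖ = 1 := by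
  unfold ch
  have : (-(l * x : ℝ) : ℂ) * Complex.I = ((-(l * x) : ℝ) : ℂ) * Complex.I := by push_cast; ring
  rw [this]
  exact Complex.norm_exp_ofReal_mul_I _

theorem J_bound (l : ℤ) (hl : l ≠ 0) (A B : ℝ) : ‖J l A B‖ ≤ 2 / |(l : ℝ)| := by
  unfold J
  rw [if_neg hl, norm_div, norm_mul, Complex.norm_I, mul_one, Complex.norm_intCast]
  apply div_le_div_of_nonneg_right _ (abs_nonneg _)
  refine (norm_sub_le _ _).trans ?_
  rw [norm_ch, norm_ch]
  norm_num

theorem absum (c : ℕ → ℂ) (A B : ℝ) (hA : 1 ≤ A) (hAB : A ≤ B) (Mt : ℝ → ℂ)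
    (hM : ContinuousOn Mt (Set.Icc A B)) (V : ℝ) (hV : 0 ≤ V)
    (h : ∀ t ∈ Set.Icc A B, ‖∑ k ∈ Icc 0 ⌊t⌋₊, c k - Mt t‖ ≤ V * t) :
    ‖∑ k ∈ Ioc ⌊A⌋₊ ⌊B⌋₊, (k : ℂ)⁻¹ * c k - (Mt B / B - Mt A / A +
      ∫ t in A..B, Mt t / (t : ℂ) ^ 2)‖ ≤ V * (2 + Real.log (B / A)) := by
  have hA0 : 0 < A := by linarith
  have hB0 : 0 < B := by linarith
  let f : ℝ → ℂ := fun t => (t : ℂ)⁻¹
  have hne : ∀ t ∈ Set.Icc A B, (t : ℂ) ≠ 0 := by
    intro t ht
    have : t ≠ 0 := by linarith [ht.1]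
    exact_mod_cast this
  have hder : ∀ t : ℝ, t ≠ 0 → HasDerivAt f (-((t : ℂ) ^ 2)⁻¹) t := by
    intro t ht
    have ht' : (t : ℂ) ≠ 0 := by exact_mod_cast ht
    exact (hasDerivAt_inv ht').comp_ofReal
  have hdiff : ∀ t ∈ Set.Icc A B, DifferentiableAt ℝ f t := by
    intro t ht
    exact (hder t (by linarith [ht.1])).differentiableAt
  have hderc : ContinuousOn (deriv f) (Set.Icc A B) := by
    have h1 : ContinuousOn (fun t : ℝ => -((t : ℂ) ^ 2)⁻¹) (Set.Icc A B) := by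
      apply ContinuousOn.neg
      apply ContinuousOn.inv₀
      · exact (Complex.continuous_ofReal.pow 2).continuousOn
      · intro t ht
        exact pow_ne_zero 2 (hne t ht)
    apply h1.congr
    intro t ht
    exact (hder t (by linarith [ht.1])).deriv
  have hint : IntegrableOn (deriv f) (Set.Icc A B) := hderc.integrableOn_Icc
  have habel := sum_mul_eq_sub_sub_integral_mul c hA0.le hAB hdiff hint
  have hI1 : IntegrableOn (fun t => deriv f t * ∑ k ∈ Icc 0 ⌊t⌋₊, c k) (Set.Icc A B) :=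
    integrableOn_mul_sum_Icc c hA0.le hint
  have hI2 : IntegrableOn (fun t => deriv f t * Mt t) (Set.Icc A B) :=
    (hderc.mul hM).integrableOn_Icc
  have e1 : ∫ t in A..B, Mt t / (t : ℂ) ^ 2 = -∫ t in Set.Ioc A B, deriv f t * Mt t := by
    rw [intervalIntegral.integral_of_le hAB, ← integral_neg]
    apply setIntegral_congr_fun measurableSet_Ioc
    intro t ht
    simp only
    rw [(hder t (by linarith [ht.1])).deriv]
    rw [div_eq_mul_inv]
    ring
  have e2 : ∑ k ∈ Ioc ⌊A⌋₊ ⌊B⌋₊, (k : ℂ)⁻¹ * c k - (Mt B / B - Mt A / A +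
      ∫ t in A..B, Mt t / (t : ℂ) ^ 2) =
      (B : ℂ)⁻¹ * (∑ k ∈ Icc 0 ⌊B⌋₊, c k - Mt B) - (A : ℂ)⁻¹ * (∑ k ∈ Icc 0 ⌊A⌋₊, c k - Mt A) -
        ∫ t in Set.Ioc A B, deriv f t * (∑ k ∈ Icc 0 ⌊t⌋₊, c k - Mt t) := by
    have e3 : ∫ t in Set.Ioc A B, deriv f t * (∑ k ∈ Icc 0 ⌊t⌋₊, c k - Mt t) =
        (∫ t in Set.Ioc A B, deriv f t * ∑ k ∈ Icc 0 ⌊t⌋₊, c k) -
          ∫ t in Set.Ioc A B, deriv f t * Mt t := by
      rw [← integral_sub (hI1.mono_set Set.Ioc_subset_Icc_self)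
        (hI2.mono_set Set.Ioc_subset_Icc_self)]
      congr 1
      ext t
      ring
    have e4 : ∑ k ∈ Ioc ⌊A⌋₊ ⌊B⌋₊, (k : ℂ)⁻¹ * c k = ∑ k ∈ Ioc ⌊A⌋₊ ⌊B⌋₊, f k * c k := by
      apply Finset.sum_congr rfl
      intro k _
      simp [f]
    rw [e4, habel, e3, e1]
    simp only [f]
    rw [div_eq_mul_inv, div_eq_mul_inv]
    ring
  rw [e2]
  have b1 : ‖(B : ℂ)⁻¹ * (∑ k ∈ Icc 0 ⌊B⌋₊, c k - Mt B)‖ ≤ V := by
    rw [norm_mul, norm_inv, Complex.norm_real, Real.norm_of_nonneg hB0.le, inv_mul_le_iff₀ hB0,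
      mul_comm B]
    exact h B ⟨hAB, le_rfl⟩
  have b2 : ‖(A : ℂ)⁻¹ * (∑ k ∈ Icc 0 ⌊A⌋₊, c k - Mt A)‖ ≤ V := by
    rw [norm_mul, norm_inv, Complex.norm_real, Real.norm_of_nonneg hA0.le, inv_mul_le_iff₀ hA0,
      mul_comm A]
    exact h A ⟨le_rfl, hAB⟩
  have b3 : ‖∫ t in Set.Ioc A B, deriv f t * (∑ k ∈ Icc 0 ⌊t⌋₊, c k - Mt t)‖ ≤
      V * Real.log (B / A) := by
    rw [← intervalIntegral.integral_of_le hAB]
    have h1 : ∀ t ∈ Set.Ioc A B, ‖deriv f t * (∑ k ∈ Icc 0 ⌊t⌋₊, c k - Mt t)‖ ≤ V * t⁻¹ := by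
      intro t ht
      have ht0 : 0 < t := by linarith [ht.1]
      rw [(hder t ht0.ne').deriv, norm_mul, norm_neg, norm_inv, norm_pow, Complex.norm_real,
        Real.norm_of_nonneg ht0.le]
      calc (t ^ 2)⁻¹ * ‖∑ k ∈ Icc 0 ⌊t⌋₊, c k - Mt t‖ ≤ (t ^ 2)⁻¹ * (V * t) :=
            mul_le_mul_of_nonneg_left (h t ⟨ht.1.le, ht.2⟩) (by positivity)
        _ = V * t⁻¹ := by
            field_simp
    have h2 : ‖∫ t in A..B, deriv f t * (∑ k ∈ Icc 0 ⌊t⌋₊, c k - Mt t)‖ ≤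
        |∫ t in A..B, V * t⁻¹| := by
      apply intervalIntegral.norm_integral_le_abs_of_norm_le
      · rw [Set.uIoc_of_le hAB]
        exact (ae_restrict_iff' measurableSet_Ioc).2 (Eventually.of_forall h1)
      · apply ContinuousOn.intervalIntegrable
        rw [Set.uIcc_of_le hAB]
        apply ContinuousOn.mul continuousOn_const
        apply ContinuousOn.inv₀ continuousOn_id
        intro t ht
        have : 0 < t := by linarith [ht.1]
        exact this.ne'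
    refine h2.trans (le_of_eq ?_)
    rw [intervalIntegral.integral_const_mul, integral_inv_of_pos hA0 hB0, abs_of_nonneg]
    apply mul_nonneg hV
    apply Real.log_nonneg
    rw [le_div_iff₀ hA0]
    linarith
  refine (norm_sub_le _ _).trans ?_
  have := (norm_sub_le ((B : ℂ)⁻¹ * (∑ k ∈ Icc 0 ⌊B⌋₊, c k - Mt B))
    ((A : ℂ)⁻¹ * (∑ k ∈ Icc 0 ⌊A⌋₊, c k - Mt A)))
  linarith

/-- the main term -/
noncomputable def Mt (l : ℤ) (t : ℝ) : ℂ :=
  (Real.pi : ℂ) * (t : ℂ) ^ (1 - l * Complex.I) / (1 - l * Complex.I)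

theorem one_sub_ne (l : ℤ) : (1 : ℂ) - l * Complex.I ≠ 0 := by
  intro h
  have := congrArg Complex.re h
  simp at this

theorem Mt_cont (l : ℤ) (A B : ℝ) (hA : 0 < A) : ContinuousOn (Mt l) (Set.Icc A B) := by
  unfold Mt
  apply ContinuousOn.div_const
  apply ContinuousOn.mul continuousOn_const
  intro t ht
  have ht0 : 0 < t := by linarith [ht.1]
  have h1 : ContinuousAt (fun t : ℝ => (t : ℂ) ^ (1 - (l : ℂ) * Complex.I)) t := by
    apply ContinuousAt.cpow Complex.continuous_ofReal.continuousAt continuousAt_const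
    exact Complex.ofReal_mem_slitPlane.2 ht0
  exact h1.continuousWithinAt

theorem cpow_ch (l : ℤ) (t : ℝ) (ht : 0 < t) :
    (t : ℂ) ^ (-(l : ℂ) * Complex.I) = ch l (Real.log t) := by
  rw [Complex.cpow_def_of_ne_zero (by exact_mod_cast ht.ne')]
  unfold ch
  congr 1
  rw [← Complex.ofReal_log ht.le]
  push_cast
  ring

theorem Mt_main (l : ℤ) (A B : ℝ) (hA : 0 < A) (hAB : A ≤ B) :
    Mt l B / B - Mt l A / A + ∫ t in A..B, Mt l t / (t : ℂ) ^ 2 = Real.pi * J l A B := by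
  have hB : 0 < B := by linarith
  have h0 : (0 : ℝ) ∉ Set.uIcc A B := by
    rw [Set.uIcc_of_le hAB]
    intro h
    linarith [h.1]
  by_cases hl : l = 0
  · subst hl
    have e1 : ∀ t : ℝ, Mt 0 t = Real.pi * t := by
      intro t
      unfold Mt
      simp
    have e2 : ∫ t in A..B, Mt 0 t / (t : ℂ) ^ 2 = ((∫ t in A..B, Real.pi * t⁻¹ : ℝ) : ℂ) := by
      rw [← intervalIntegral.integral_ofReal]
      apply intervalIntegral.integral_congr
      intro t ht
      have ht0 : t ≠ 0 := fun h => h0 (h ▸ ht)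
      have ht0' : (t : ℂ) ≠ 0 := by exact_mod_cast ht0
      simp only
      rw [e1]
      push_cast
      field_simp
    rw [e2, intervalIntegral.integral_const_mul, integral_inv_of_pos hA hB, e1, e1]
    unfold J
    rw [if_pos rfl, Real.log_div hB.ne' hA.ne']
    have hA' : (A : ℂ) ≠ 0 := by exact_mod_cast hA.ne'
    have hB' : (B : ℂ) ≠ 0 := by exact_mod_cast hB.ne'
    rw [mul_div_cancel_right₀ _ hA', mul_div_cancel_right₀ _ hB']
    push_cast
    ring
  · have hl' : (l : ℂ) ≠ 0 := by exact_mod_cast hl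
    have hs : -(l : ℂ) * Complex.I ≠ 0 := by simp [hl', Complex.I_ne_zero]
    have e1 : ∀ t : ℝ, 0 < t → Mt l t = Real.pi * (t * (t : ℂ) ^ (-(l : ℂ) * Complex.I)) /
        (1 - l * Complex.I) := by
      intro t ht
      unfold Mt
      have ht' : (t : ℂ) ≠ 0 := by exact_mod_cast ht.ne'
      have : (1 : ℂ) - l * Complex.I = 1 + (-(l : ℂ) * Complex.I) := by ring
      rw [this, Complex.cpow_add _ _ ht', Complex.cpow_one]
    have e2 : ∫ t in A..B, Mt l t / (t : ℂ) ^ 2 =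
        (Real.pi / (1 - l * Complex.I)) * ∫ t in A..B, (t : ℂ) ^ (-(l : ℂ) * Complex.I - 1) := by
      rw [← intervalIntegral.integral_const_mul]
      apply intervalIntegral.integral_congr
      intro t ht
      rw [Set.uIcc_of_le hAB] at ht
      have ht0 : 0 < t := by linarith [ht.1]
      have ht' : (t : ℂ) ≠ 0 := by exact_mod_cast ht0.ne'
      simp only
      rw [e1 t ht0, Complex.cpow_sub _ _ ht', Complex.cpow_one]
      have := one_sub_ne l
      field_simp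
    have e3 : ∫ t in A..B, (t : ℂ) ^ (-(l : ℂ) * Complex.I - 1) =
        ((B : ℂ) ^ (-(l : ℂ) * Complex.I) - (A : ℂ) ^ (-(l : ℂ) * Complex.I)) /
          (-(l : ℂ) * Complex.I) := by
      rw [integral_cpow, sub_add_cancel]
      · right
        refine ⟨?_, h0⟩
        intro h
        apply hs
        linear_combination h
    rw [e2, e3, e1 B hB, e1 A hA, cpow_ch l B hB, cpow_ch l A hA]
    unfold J
    rw [if_neg hl]
    have h1 := one_sub_ne l
    have hA' : (A : ℂ) ≠ 0 := by exact_mod_cast hA.ne'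
    have hB' : (B : ℂ) ≠ 0 := by exact_mod_cast hB.ne'
    have hI := Complex.I_ne_zero
    field_simp
    ring

end Pool.Agent.N897.MS.Sel2
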