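import Pool.Agent.N897.MS.Sel2a
import Pool.Agent.W194.GA.Sele

set_option autoImplicit false

/-! Project MS (helper912), MS3: sums of the characters over annuli. -/

namespace Pool.Agent.N897.MS.Sel2

open Finset Filter
open Pool.Agent.H376R2.MR (ch er FR FK)
open Pool.Agent.W78.GA
open Pool.Agent.N912.MS (Gi ph chi nrm gq S_EXP2 S_SEL2)

theorem hD1 : (0 : ℤ) ^ 2 < 4 * 1 := by norm_num

/-- the main term of the sum over an annulus -/
noncomputable def mn (κ : ℤ × ℤ) (A B : ℝ) : ℂ := if κ.1 = 0 then Real.pi * J κ.2 A B else 0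

theorem sum_c (f : Gi → ℂ) (t B : ℝ) (ht0 : 0 ≤ t) (ht : t ≤ B) :
    ∑ k ∈ Icc 0 ⌊t⌋₊, ∑ z ∈ (ball 0 1 B).filter (fun z => nm z = k), f z =
      ∑ z ∈ ball 0 1 t, f z := by
  classical
  rw [← Finset.sum_fiberwise_of_maps_to (s := ball 0 1 t) (t := Icc 0 ⌊t⌋₊) (g := nm)]
  · apply Finset.sum_congr rfl
    intro k hk
    apply Finset.sum_congr _ (fun _ _ => rfl)
    rw [mem_Icc] at hk
    ext z
    rw [mem_filter, mem_filter, mem_ball hD1, mem_ball hD1]
    have hkt : (k : ℝ) ≤ t := (Nat.le_floor_iff ht0).1 hk.2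
    constructor
    · rintro ⟨⟨h1, h2⟩, h3⟩
      exact ⟨⟨h1, by rw [h3]; exact hkt⟩, h3⟩
    · rintro ⟨⟨h1, h2⟩, h3⟩
      exact ⟨⟨h1, h2.trans ht⟩, h3⟩
  · intro z hz
    rw [mem_ball hD1] at hz
    rw [mem_Icc]
    exact ⟨Nat.zero_le _, Nat.le_floor hz.2⟩

theorem sum_a (f : Gi → ℂ) (A B : ℝ) (hA : 0 ≤ A) :
    ∑ k ∈ Ioc ⌊A⌋₊ ⌊B⌋₊, (k : ℂ)⁻¹ * ∑ z ∈ (ball 0 1 B).filter (fun z => nm z = k), f z =
      ∑ z ∈ ann 0 1 A B, f z / (nm z : ℂ) := by
  classical
  rw [← Finset.sum_fiberwise_of_maps_to (s := ann 0 1 A B) (t := Ioc ⌊A⌋₊ ⌊B⌋₊) (g := nm)]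
  · apply Finset.sum_congr rfl
    intro k hk
    rw [mem_Ioc] at hk
    rw [Finset.mul_sum]
    have hs : (ball 0 1 B).filter (fun z : Gi => nm z = k) =
        (ann 0 1 A B).filter (fun z : Gi => nm z = k) := by
      ext z
      rw [mem_filter, mem_filter, mem_ball hD1, mem_ann hD1]
      constructor
      · rintro ⟨⟨h1, h2⟩, h3⟩
        refine ⟨⟨h1, ?_, h2⟩, h3⟩
        rw [h3]
        exact (Nat.floor_lt hA).1 hk.1
      · rintro ⟨⟨h1, h2, h4⟩, h3⟩
        exact ⟨⟨h1, h4⟩, h3⟩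
    rw [hs]
    apply Finset.sum_congr rfl
    intro z hz
    rw [mem_filter] at hz
    rw [hz.2, div_eq_mul_inv, mul_comm]
  · intro z hz
    rw [mem_ann hD1] at hz
    rw [mem_Ioc]
    exact ⟨(Nat.floor_lt hA).2 hz.2.1, Nat.le_floor hz.2.2⟩

theorem part (h : S_EXP2) (M : ℕ) : ∃ η : ℝ, 0 < η ∧ ∃ C : ℝ, 0 < C ∧
    ∀ (A B : ℝ) (κ : ℤ × ℤ), 1 ≤ A → A ≤ B → B ≤ Real.exp 2 * A → (nrm κ : ℝ) ≤ A ^ M →
    ‖∑ z ∈ ann 0 1 A B, chi κ z / (nm z : ℂ) - mn κ A B‖ ≤ C * A ^ (-η) := by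
  obtain ⟨η, hη, hη1, C, hC, hexp⟩ := h M
  refine ⟨η, hη, 4 * C, by positivity, ?_⟩
  intro A B κ hA hAB hB hκ
  have hA0 : 0 < A := by linarith
  have hB0 : 0 < B := by linarith
  let c : ℕ → ℂ := fun k => ∑ z ∈ (ball 0 1 B).filter (fun z => nm z = k), chi κ z
  let Mf : ℝ → ℂ := fun t => if κ.1 = 0 then Mt κ.2 t else 0
  have hMf : ContinuousOn Mf (Set.Icc A B) := by
    simp only [Mf]
    split_ifs
    · exact Mt_cont _ _ _ hA0
    · exact continuousOn_const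
  have hV : ∀ t ∈ Set.Icc A B, ‖∑ k ∈ Icc 0 ⌊t⌋₊, c k - Mf t‖ ≤ (C * A ^ (-η)) * t := by
    intro t ht
    have ht0 : 0 < t := by linarith [ht.1]
    rw [sum_c (chi κ) t B ht0.le ht.2]
    have h1 := hexp t κ (hA.trans ht.1) (hκ.trans (pow_le_pow_left₀ hA0.le ht.1 M))
    have h2 : ‖∑ z ∈ ball 0 1 t, chi κ z - Mf t‖ ≤ C * t ^ (1 - η) := by
      simp only [Mf]
      split_ifs with h0
      · exact h1.2 h0
      · rw [sub_zero]
        exact h1.1 h0
    refine h2.trans ?_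
    have h3 : t ^ (1 - η) = t * t ^ (-η) := by
      rw [sub_eq_add_neg, Real.rpow_add ht0, Real.rpow_one]
    have h4 : t ^ (-η) ≤ A ^ (-η) := Real.rpow_le_rpow_of_nonpos hA0 ht.1 (by linarith)
    rw [h3]
    calc C * (t * t ^ (-η)) ≤ C * (t * A ^ (-η)) := by gcongr
      _ = C * A ^ (-η) * t := by ring
  have hmain := absum c A B hA hAB Mf hMf (C * A ^ (-η)) (by positivity) hV
  rw [sum_a (chi κ) A B hA0.le] at hmain
  have hM2 : Mf B / B - Mf A / A + ∫ t in A..B, Mf t / (t : ℂ) ^ 2 = mn κ A B := by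
    simp only [Mf]
    unfold mn
    split_ifs with h0
    · exact Mt_main κ.2 A B hA0 hAB
    · simp
  rw [hM2] at hmain
  refine hmain.trans ?_
  have h5 : Real.log (B / A) ≤ 2 := by
    rw [Real.log_le_iff_le_exp (by positivity), div_le_iff₀ hA0]
    exact hB
  have h6 : 0 ≤ C * A ^ (-η) := by positivity
  nlinarith

/-! ### characters -/

theorem chi_mul (κ : ℤ × ℤ) {z u : Gi} (hz : z ≠ 0) (hu : u ≠ 0) :
    chi κ (z * u) = chi κ z * chi κ u := by
  unfold chi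
  have h1 := nm_posR hD1 hz
  have h2 := nm_posR hD1 hu
  rw [ps_mul hD1, nm_mul, Nat.cast_mul, Real.log_mul h1.ne' h2.ne']
  have : ch κ.2 (Real.log (nm z) + Real.log (nm u)) =
      ch κ.2 (Real.log (nm z)) * ch κ.2 (Real.log (nm u)) := by
    unfold ch
    rw [← Complex.exp_add]
    congr 1
    push_cast
    ring
  rw [this]
  ring

theorem norm_chi (κ : ℤ × ℤ) {z : Gi} (hz : z ≠ 0) : ‖chi κ z‖ = 1 := by
  unfold chi
  rw [norm_mul, norm_ps hD1 hz, norm_ch, one_mul]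

theorem mn_scale (κ : ℤ × ℤ) {u : Gi} (hu : u ≠ 0) (A B : ℝ) (hA : 0 < A) (hB : 0 < B) :
    chi κ u * mn κ (A / nm u) (B / nm u) = mn κ A B := by
  have hq := nm_posR hD1 hu
  unfold mn
  split_ifs with h0
  · have h1 : chi κ u = ch κ.2 (Real.log (nm u)) := by
      unfold chi
      rw [h0, ps_zero, one_mul]
    rw [h1]
    unfold J
    rw [Real.log_div hA.ne' hq.ne', Real.log_div hB.ne' hq.ne']
    split_ifs with hl
    · rw [hl]
      have : ch 0 (Real.log (nm u)) = 1 := by simp [ch]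
      rw [this, one_mul]
      push_cast
      ring
    · have h2 : ∀ x : ℝ, ch κ.2 (Real.log (nm u)) * ch κ.2 (x - Real.log (nm u)) = ch κ.2 x := by
        intro x
        unfold ch
        rw [← Complex.exp_add]
        congr 1
        push_cast
        ring
      calc ch κ.2 (Real.log (nm u)) * (Real.pi * ((ch κ.2 (Real.log A - Real.log (nm u)) -
            ch κ.2 (Real.log B - Real.log (nm u))) / (κ.2 * Complex.I)))
          = Real.pi * ((ch κ.2 (Real.log (nm u)) * ch κ.2 (Real.log A - Real.log (nm u)) -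
            ch κ.2 (Real.log (nm u)) * ch κ.2 (Real.log B - Real.log (nm u))) /
              (κ.2 * Complex.I)) := by ring
        _ = _ := by rw [h2, h2]
  · rw [mul_zero]

/-- coefficients of the Fejer kernel -/
noncomputable def co (R : ℕ) (m : ℤ) : ℝ := 1 - |(m : ℝ)| / R

theorem FR_expand (R : ℕ) (κ : ℤ × ℤ) (φ : ℝ) {z : Gi} (hz : z ≠ 0) :
    FR R (ph κ z + φ) = ∑ m ∈ FK R, co R m * (er m φ * chi (m * κ.1, m * κ.2) z).re := by
  unfold FR
  apply Finset.sum_congr rfl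
  intro m _
  have h1 : er m φ * chi (m * κ.1, m * κ.2) z =
      Complex.exp (((m * (ph κ z + φ) : ℝ) : ℂ) * Complex.I) := by
    unfold chi ch er
    simp only
    rw [ps_eq_exp hD1 hz, ← Complex.exp_add, ← Complex.exp_add]
    congr 1
    unfold ph
    push_cast
    ring
  rw [h1, Complex.exp_ofReal_mul_I_re]
  rfl

/-! ### ideals -/

/-- the Gaussian integer -/
def tg (z : Gi) : GaussianInt := ⟨z.re, z.im⟩

theorem tg_mul (z w : Gi) : tg (z * w) = tg z * tg w := by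
  apply Zsqrtd.ext
  · simp only [tg, Zsqrtd.re_mul, QuadraticAlgebra.re_mul]
    try ring
  · simp only [tg, Zsqrtd.im_mul, QuadraticAlgebra.im_mul]
    try ring

theorem tg_surj (g : GaussianInt) : ∃ z : Gi, tg z = g := ⟨⟨g.re, g.im⟩, rfl⟩

theorem tg_inj {z w : Gi} (h : tg z = tg w) : z = w := by
  have h1 := congrArg Zsqrtd.re h
  have h2 := congrArg Zsqrtd.im h
  exact QuadraticAlgebra.ext h1 h2

theorem tg_dvd {z w : Gi} : tg z ∣ tg w ↔ z ∣ w := by
  constructor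
  · rintro ⟨g, hg⟩
    obtain ⟨u, rfl⟩ := tg_surj g
    rw [← tg_mul] at hg
    exact ⟨u, tg_inj hg⟩
  · rintro ⟨u, rfl⟩
    exact ⟨tg u, tg_mul _ _⟩

theorem nm_i (z : Gi) : (nm z : ℤ) = z.re ^ 2 + z.im ^ 2 := by
  rw [nm_cast hD1]
  ring

/-- the ideals with cyclic quotient are principal -/
theorem gen (d : ℕ) (hd : 1 ≤ d) (r : ℤ) (hr : (d : ℤ) ∣ r ^ 2 + 1) :
    ∃ w : Gi, nm w = d ∧ ∀ z : Gi, lat d r z ↔ w ∣ z := by
  obtain ⟨g, hg⟩ := (IsPrincipalIdealRing.principal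
    (Ideal.span {((d : ℤ) : GaussianInt), (⟨-r, 1⟩ : GaussianInt)})).principal
  have hmem : ∀ z : GaussianInt, g ∣ z ↔ (d : ℤ) ∣ z.re + r * z.im := by
    intro z
    have h1 : g ∣ z ↔ z ∈ Ideal.span {((d : ℤ) : GaussianInt), (⟨-r, 1⟩ : GaussianInt)} := by
      rw [hg]
      exact (Ideal.mem_span_singleton).symm
    rw [h1, Ideal.mem_span_pair]
    constructor
    · rintro ⟨a, b, rfl⟩
      obtain ⟨k, hk⟩ := hr
      simp only [Zsqrtd.re_add, Zsqrtd.im_add, Zsqrtd.re_mul, Zsqrtd.im_mul, Zsqrtd.re_intCast,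
        Zsqrtd.im_intCast]
      refine ⟨a.re + r * a.im - b.im * k, ?_⟩
      linear_combination (-b.im) * hk
    · rintro ⟨k, hk⟩
      refine ⟨(k : GaussianInt), (z.im : GaussianInt), ?_⟩
      apply Zsqrtd.ext
      · simp only [Zsqrtd.re_add, Zsqrtd.re_mul, Zsqrtd.im_mul, Zsqrtd.re_intCast,
          Zsqrtd.im_intCast]
        linear_combination -hk
      · simp only [Zsqrtd.im_add, Zsqrtd.re_mul, Zsqrtd.im_mul, Zsqrtd.re_intCast,
          Zsqrtd.im_intCast]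
        ring
  obtain ⟨w, rfl⟩ := tg_surj g
  refine ⟨w, ?_, ?_⟩
  · -- the norm
    have h1 : (d : ℤ) ∣ w.re + r * w.im := (hmem (tg w)).1 dvd_rfl
    have h2 : (d : ℤ) ∣ (nm w : ℤ) := by
      rw [nm_i]
      obtain ⟨a, ha⟩ := h1
      obtain ⟨k, hk⟩ := hr
      refine ⟨a * (w.re - r * w.im) + k * w.im ^ 2, ?_⟩
      linear_combination (w.re - r * w.im) * ha + w.im ^ 2 * hk
    obtain ⟨m, hm⟩ := h2
    obtain ⟨a, ha⟩ : tg w ∣ ((d : ℤ) : GaussianInt) := (hmem _).2 (by simp)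
    obtain ⟨b, hb⟩ : tg w ∣ (⟨-r, 1⟩ : GaussianInt) := (hmem _).2 (by simp)
    have hd0 : ((d : ℤ) : GaussianInt) ≠ 0 := by
      intro h
      have := congrArg Zsqrtd.re h
      simp at this
      omega
    have hN : star (tg w) * tg w = ((nm w : ℤ) : GaussianInt) := by
      apply Zsqrtd.ext
      · simp only [Zsqrtd.re_mul, Zsqrtd.re_star, Zsqrtd.im_star, Zsqrtd.re_intCast, tg]
        rw [nm_i]
        ring
      · simp only [Zsqrtd.im_mul, Zsqrtd.re_star, Zsqrtd.im_star, Zsqrtd.im_intCast, tg]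
        ring
    have h3 : star (tg w) = (m : GaussianInt) * a := by
      apply mul_left_cancel₀ hd0
      calc ((d : ℤ) : GaussianInt) * star (tg w) = (star (tg w) * tg w) * a := by
            rw [ha]; ring
        _ = ((d : ℤ) : GaussianInt) * ((m : GaussianInt) * a) := by
            rw [hN, hm]; push_cast; ring
    have h4 : star (⟨-r, 1⟩ : GaussianInt) = (m : GaussianInt) * (a * star b) := by
      rw [hb, star_mul', h3]
      ring
    have h5 : m ∣ 1 := by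
      have h6 := congrArg Zsqrtd.im h4
      rw [Zsqrtd.im_mul, Zsqrtd.re_intCast, Zsqrtd.im_intCast] at h6
      simp only [Zsqrtd.im_star, zero_mul, add_zero] at h6
      refine ⟨-(a * star b).im, ?_⟩
      linarith
    have h7 : 0 ≤ m := by
      by_contra hneg
      push Not at hneg
      have h8 : (0 : ℤ) ≤ nm w := by positivity
      have h9 : (0 : ℤ) < d := by exact_mod_cast hd
      nlinarith
    have h10 : m = 1 := Int.eq_one_of_dvd_one h7 h5
    rw [h10, mul_one] at hm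
    exact_mod_cast hm
  · intro z
    rw [← tg_dvd, hmem]
    rfl

end Pool.Agent.N897.MS.Sel2
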