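import Pool.Agent.N897.MS.Sel2b

set_option autoImplicit false

/-! Project MS (helper912), MS3: the base estimate and the sieve inequality. -/

namespace Pool.Agent.N897.MS.Sel2

open Finset Filter
open Pool.Agent.H376R2.MR (ch er FR FK Fj_nonneg sel_aux_er_norm sel_aux_card)
open Pool.Agent.W78.GA
open Pool.Agent.W194.GA
open Pool.Agent.N912.MS (Gi ph chi nrm gq S_EXP2 S_SEL2)
open Pool.Agent.H970R2.X (cellP P1)

/-- the Fejer weight at `z` -/
noncomputable def FF2 (R : ℕ) (κ : ℤ × ℤ) (φ : ℝ) (z : Gi) : ℝ :=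
  FR R (ph κ z + φ) / (nm z : ℝ)

theorem FF2_nonneg (R : ℕ) (κ : ℤ × ℤ) (φ : ℝ) (z : Gi) : 0 ≤ FF2 R κ φ z :=
  div_nonneg (Fj_nonneg R _) (Nat.cast_nonneg _)

/-- the main term -/
noncomputable def rho (R : ℕ) (κ : ℤ × ℤ) (φ A B : ℝ) : ℝ :=
  ∑ m ∈ FK R, co R m * (er m φ * mn (m * κ.1, m * κ.2) A B).re

theorem co_bd {R : ℕ} (hR : 1 ≤ R) {m : ℤ} (hm : m ∈ FK R) : |co R m| ≤ 1 := by
  have hRpos : (0 : ℝ) < R := by exact_mod_cast hR
  unfold FK at hm
  rw [Finset.mem_Ioo] at hm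
  have h1 : |(m : ℝ)| ≤ R := by
    rw [abs_le]
    constructor
    · have := hm.1.le
      exact_mod_cast this
    · have := hm.2.le
      exact_mod_cast this
  have h2 : |(m : ℝ)| / R ≤ 1 := by rw [div_le_one hRpos]; exact h1
  have h3 : 0 ≤ |(m : ℝ)| / R := by positivity
  unfold co
  rw [abs_le]
  constructor <;> linarith

theorem mul_inj {u z z' : Gi} (hu : u ≠ 0) (h : u * z = u * z') : z = z' := by
  apply tg_inj
  have h1 : tg u ≠ 0 := by
    intro h0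
    apply hu
    apply tg_inj
    rw [h0]
    rfl
  apply mul_left_cancel₀ h1
  rw [← tg_mul, ← tg_mul, h]

theorem base (A B : ℝ) (hA : 0 < A) (hB : 0 < B) (R : ℕ) (hR : 1 ≤ R) (κ : ℤ × ℤ) (φ : ℝ)
    (d : ℕ) (r : ℤ) (n : ℕ) (hd : 1 ≤ d) (hn : 1 ≤ n) (hdn : Nat.Coprime d n)
    (hr : (d : ℤ) ∣ r ^ 2 - 0 * r + 1) (E : ℝ) (hE : 0 ≤ E)
    (h : ∀ m ∈ FK R, ‖∑ z ∈ ann 0 1 (A / (d * (n : ℝ) ^ 2)) (B / (d * (n : ℝ) ^ 2)),
      chi (m * κ.1, m * κ.2) z / (nm z : ℂ) -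
        mn (m * κ.1, m * κ.2) (A / (d * (n : ℝ) ^ 2)) (B / (d * (n : ℝ) ^ 2))‖ ≤ E) :
    |∑ z ∈ SS 0 1 A B ∅ d r n, FF2 R κ φ z - rho R κ φ A B / (d * (n : ℝ) ^ 2)| ≤
      (2 * R * E) / (d * (n : ℝ) ^ 2) := by
  classical
  have hr' : (d : ℤ) ∣ r ^ 2 + 1 := by
    have e : r ^ 2 - 0 * r + 1 = r ^ 2 + 1 := by ring
    rwa [e] at hr
  obtain ⟨w, hw, hlat⟩ := gen d hd r hr'
  have hd0 : (0 : ℝ) < d := by exact_mod_cast hd
  have hn0 : (0 : ℝ) < n := by exact_mod_cast hn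
  obtain ⟨u, hu⟩ : ∃ u : Gi, u = (n : Gi) * w := ⟨_, rfl⟩
  have hnu : nm u = n ^ 2 * d := by rw [hu, nm_mul, nm_natCast, hw]
  obtain ⟨q, hq⟩ : ∃ q : ℝ, q = d * (n : ℝ) ^ 2 := ⟨_, rfl⟩
  have hq0 : 0 < q := by rw [hq]; positivity
  have hnuq : (nm u : ℝ) = q := by rw [hnu, hq]; push_cast; ring
  have hu0 : u ≠ 0 := by
    rw [← one_le_nm hD1, hnu]
    exact Nat.mul_pos (by positivity) hd
  rw [← hq] at h ⊢
  have hann0 : ∀ z ∈ ann 0 1 (A / q) (B / q), (z : Gi) ≠ 0 := by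
    intro z hz
    rw [mem_ann hD1] at hz
    exact (one_le_nm hD1).1 hz.1
  -- change of variables
  have h1 : ∑ z ∈ SS 0 1 A B ∅ d r n, FF2 R κ φ z =
      ∑ z ∈ ann 0 1 (A / q) (B / q), FF2 R κ φ (u * z) := by
    symm
    refine Finset.sum_bij (fun z _ => u * z) ?_ ?_ ?_ ?_
    · intro z hz
      rw [mem_ann hD1] at hz
      obtain ⟨h1, h2, h3⟩ := hz
      unfold SS
      rw [mem_filter, mem_ann hD1, nm_mul]
      refine ⟨⟨Nat.mul_pos ((one_le_nm hD1).2 hu0) h1, ?_, ?_⟩, by simp, ?_, ?_⟩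
      · push_cast
        rw [hnuq]
        rw [div_lt_iff₀ hq0] at h2
        linarith
      · push_cast
        rw [hnuq]
        rw [le_div_iff₀ hq0] at h3
        linarith
      · rw [hlat, hu]
        exact ⟨(n : Gi) * z, by ring⟩
      · rw [hu]
        exact ⟨w * z, by ring⟩
    · intro z₁ _ z₂ _ h
      exact mul_inj hu0 h
    · intro z hz
      unfold SS at hz
      rw [mem_filter, mem_ann hD1] at hz
      obtain ⟨⟨h1, h2, h3⟩, _, h4, z₁, hz₁⟩ := hz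
      have h5 : lat d r z₁ := by
        unfold lat at h4 ⊢
        have e : z.re + r * z.im = n * (z₁.re + r * z₁.im) := by
          rw [hz₁]
          simp only [QuadraticAlgebra.re_mul, QuadraticAlgebra.im_mul,
            QuadraticAlgebra.re_natCast, QuadraticAlgebra.im_natCast]
          ring
        rw [e] at h4
        exact (isCoprime_cast hdn).dvd_of_dvd_mul_left h4
      rw [hlat] at h5
      obtain ⟨z', hz'⟩ := h5
      have hzu : z = u * z' := by rw [hz₁, hz', hu]; ring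
      refine ⟨z', ?_, hzu.symm⟩
      rw [hzu, nm_mul] at h1 h2 h3
      push_cast at h2 h3
      rw [hnuq] at h2 h3
      rw [mem_ann hD1]
      refine ⟨Nat.pos_of_ne_zero ?_, ?_, ?_⟩
      · intro h
        rw [h] at h1
        omega
      · rw [div_lt_iff₀ hq0]; linarith
      · rw [le_div_iff₀ hq0]; linarith
    · intro z _
      rfl
  -- expansion
  have h2 : ∀ z ∈ ann 0 1 (A / q) (B / q), FF2 R κ φ (u * z) =
      ∑ m ∈ FK R, co R m * ((er m φ * chi (m * κ.1, m * κ.2) u) *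
        (chi (m * κ.1, m * κ.2) z / (nm z : ℂ))).re / q := by
    intro z hz
    have hz0 := hann0 z hz
    have huz : u * z ≠ 0 := by
      rw [← one_le_nm hD1, nm_mul]
      exact Nat.mul_pos ((one_le_nm hD1).2 hu0) ((one_le_nm hD1).2 hz0)
    unfold FF2
    rw [FR_expand R κ φ huz, nm_mul, Finset.sum_div]
    apply Finset.sum_congr rfl
    intro m _
    rw [chi_mul _ hu0 hz0]
    have e1 : (er m φ * chi (m * κ.1, m * κ.2) u) * (chi (m * κ.1, m * κ.2) z / (nm z : ℂ)) =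
        (er m φ * (chi (m * κ.1, m * κ.2) u * chi (m * κ.1, m * κ.2) z)) / ((nm z : ℕ) : ℂ) := by
      ring
    rw [e1, Complex.div_natCast_re]
    push_cast
    rw [hnuq]
    have := nm_posR hD1 hz0
    field_simp
  have h3 : ∑ z ∈ ann 0 1 (A / q) (B / q), FF2 R κ φ (u * z) =
      (∑ m ∈ FK R, co R m * ((er m φ * chi (m * κ.1, m * κ.2) u) *
        ∑ z ∈ ann 0 1 (A / q) (B / q), chi (m * κ.1, m * κ.2) z / (nm z : ℂ)).re) / q := by
    rw [Finset.sum_congr rfl h2, Finset.sum_comm, Finset.sum_div]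
    apply Finset.sum_congr rfl
    intro m _
    rw [Finset.mul_sum, Complex.re_sum, Finset.mul_sum, Finset.sum_div]
  have h4 : rho R κ φ A B = ∑ m ∈ FK R, co R m * ((er m φ * chi (m * κ.1, m * κ.2) u) *
      mn (m * κ.1, m * κ.2) (A / q) (B / q)).re := by
    unfold rho
    apply Finset.sum_congr rfl
    intro m _
    rw [← mn_scale (m * κ.1, m * κ.2) hu0 A B hA hB, hnuq, mul_assoc]
  rw [h1, h3, h4, ← sub_div, ← Finset.sum_sub_distrib, abs_div, abs_of_pos hq0]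
  apply div_le_div_of_nonneg_right _ hq0.le
  refine (Finset.abs_sum_le_sum_abs _ _).trans ?_
  have h5 : ∀ m ∈ FK R, |co R m * ((er m φ * chi (m * κ.1, m * κ.2) u) *
        ∑ z ∈ ann 0 1 (A / q) (B / q), chi (m * κ.1, m * κ.2) z / (nm z : ℂ)).re -
      co R m * ((er m φ * chi (m * κ.1, m * κ.2) u) *
      mn (m * κ.1, m * κ.2) (A / q) (B / q)).re| ≤ E := by
    intro m hm
    rw [← mul_sub, ← Complex.sub_re, ← mul_sub, abs_mul]
    have h6 := h m hm
    have h7 := Complex.abs_re_le_norm ((er m φ * chi (m * κ.1, m * κ.2) u) *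
      (∑ z ∈ ann 0 1 (A / q) (B / q), chi (m * κ.1, m * κ.2) z / (nm z : ℂ) -
        mn (m * κ.1, m * κ.2) (A / q) (B / q)))
    rw [norm_mul, norm_mul, sel_aux_er_norm, norm_chi _ hu0, one_mul, one_mul] at h7
    calc |co R m| * _ ≤ 1 * E := mul_le_mul (co_bd hR hm) (h7.trans h6) (abs_nonneg _) zero_le_one
      _ = E := one_mul _
  refine (Finset.sum_le_sum h5).trans ?_
  rw [Finset.sum_const, nsmul_eq_mul]
  exact mul_le_mul_of_nonneg_right (sel_aux_card R) hE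

theorem rho_le (R H : ℕ) (hR : 1 ≤ R) (hH : 1 ≤ H) (κ : ℤ × ℤ)
    (hκ : κ.1 ≠ 0 ∨ ((2 * R * H : ℕ) : ℤ) ≤ |κ.2|) (φ A B : ℝ)
    (hAB : Real.log B - Real.log A = 2 / H) : rho R κ φ A B ≤ 4 * Real.pi / H := by
  classical
  have hH0 : (0 : ℝ) < H := by exact_mod_cast hH
  have hR0 : (0 : ℝ) < R := by exact_mod_cast hR
  have h0mem : (0 : ℤ) ∈ FK R := by
    unfold FK
    rw [mem_Ioo]
    constructor
    · have : (1 : ℤ) ≤ R := by exact_mod_cast hR
      omega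
    · exact_mod_cast hR
  unfold rho
  rw [← Finset.add_sum_erase _ _ h0mem]
  have h0 : co R 0 * (er ((0 : ℤ) : ℝ) φ * mn ((0 : ℤ) * κ.1, (0 : ℤ) * κ.2) A B).re =
      2 * Real.pi / H := by
    have h2 : co R 0 = 1 := by simp [co]
    have h3 : er ((0 : ℤ) : ℝ) φ = 1 := by
      unfold er
      simp
    rw [h2, h3, one_mul, one_mul]
    unfold mn J
    simp only [zero_mul, if_true]
    rw [hAB]
    have : (Real.pi : ℂ) * ((2 / (H : ℝ) : ℝ) : ℂ) = ((Real.pi * (2 / H) : ℝ) : ℂ) := by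
      push_cast; ring
    rw [this, Complex.ofReal_re]
    ring
  rw [h0]
  have hb : ∀ m ∈ (FK R).erase 0, co R m * (er m φ * mn (m * κ.1, m * κ.2) A B).re ≤
      Real.pi / (R * H) := by
    intro m hm
    rw [mem_erase] at hm
    have h4 := Complex.abs_re_le_norm (er m φ * mn (m * κ.1, m * κ.2) A B)
    rw [norm_mul, sel_aux_er_norm, one_mul] at h4
    have h5 : ‖mn (m * κ.1, m * κ.2) A B‖ ≤ Real.pi / (R * H) := by
      unfold mn
      split_ifs with hz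
      · simp only at hz
        have hk1 : κ.1 = 0 := (mul_eq_zero.1 hz).resolve_left hm.1
        have hk2 : ((2 * R * H : ℕ) : ℤ) ≤ |κ.2| := hκ.resolve_left (fun h => h hk1)
        have hk3 : (1 : ℤ) ≤ |κ.2| := by
          have : 1 ≤ 2 * R * H := Nat.mul_pos (Nat.mul_pos (by norm_num) hR) hH
          have h6 : (1 : ℤ) ≤ ((2 * R * H : ℕ) : ℤ) := by exact_mod_cast this
          linarith
        have hk4 : κ.2 ≠ 0 := by
          intro h
          rw [h] at hk3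
          simp at hk3
        have hml : m * κ.2 ≠ 0 := mul_ne_zero hm.1 hk4
        have h6 := J_bound (m * κ.2) hml A B
        rw [norm_mul, Complex.norm_real, Real.norm_of_nonneg Real.pi_pos.le]
        have h7 : (2 * R * H : ℝ) ≤ |((m * κ.2 : ℤ) : ℝ)| := by
          have h8 : (1 : ℤ) ≤ |m| := Int.one_le_abs hm.1
          have h9 : |κ.2| ≤ |m * κ.2| := by
            rw [abs_mul]
            exact le_mul_of_one_le_left (abs_nonneg _) h8
          have h10 := hk2.trans h9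
          exact_mod_cast h10
        have h8 : 2 / |((m * κ.2 : ℤ) : ℝ)| ≤ 2 / (2 * R * H) :=
          div_le_div_of_nonneg_left (by norm_num) (by positivity) h7
        calc Real.pi * ‖J (m * κ.2) A B‖ ≤ Real.pi * (2 / (2 * R * H)) :=
              mul_le_mul_of_nonneg_left (h6.trans h8) Real.pi_pos.le
          _ = Real.pi / (R * H) := by field_simp
      · rw [norm_zero]
        positivity
    have h6 : |co R m * (er m φ * mn (m * κ.1, m * κ.2) A B).re| ≤ Real.pi / (R * H) := by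
      rw [abs_mul]
      calc |co R m| * _ ≤ 1 * (Real.pi / (R * H)) :=
            mul_le_mul (co_bd hR hm.2) (h4.trans h5) (abs_nonneg _) zero_le_one
        _ = _ := one_mul _
    exact (le_abs_self _).trans h6
  have h7 := Finset.sum_le_sum hb
  rw [Finset.sum_const, nsmul_eq_mul] at h7
  have h8 : (((FK R).erase 0).card : ℝ) ≤ 2 * R := by
    refine le_trans ?_ (sel_aux_card R)
    exact_mod_cast Finset.card_le_card (Finset.erase_subset _ _)
  have h9 : (((FK R).erase 0).card : ℝ) * (Real.pi / (R * H)) ≤ 2 * R * (Real.pi / (R * H)) :=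
    mul_le_mul_of_nonneg_right h8 (by positivity)
  have h10 : 2 * R * (Real.pi / (R * H)) = 2 * Real.pi / H := by field_simp
  have h11 : 4 * Real.pi / (H : ℝ) = 2 * Real.pi / H + 2 * Real.pi / H := by ring
  rw [h11]
  linarith

theorem nm_gq {p : ℕ} (hp : p.Prime) (h4 : p % 4 = 1) : nm (gq p) = p := by
  have h : ∃ z : Gi, nm z = p := by
    have := Fact.mk hp
    obtain ⟨a, b, hab⟩ := Nat.Prime.sq_add_sq (p := p) (by omega)
    refine ⟨⟨a, b⟩, ?_⟩
    have h1 := nm_i (⟨a, b⟩ : Gi)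
    simp only at h1
    have h2 : ((nm (⟨a, b⟩ : Gi) : ℕ) : ℤ) = (p : ℤ) := by
      rw [h1, ← hab]
      push_cast
      ring
    exact_mod_cast h2
  unfold gq
  rw [dif_pos h]
  exact h.choose_spec

/-- the sieve inequality -/
theorem sel_main2 (H v R D : ℕ) (κ : ℤ × ℤ) (φ A B : ℝ) (l : ℕ → ℝ) (hl1 : l 1 = 1)
    (hl : ∀ d, |l d| ≤ 1)
    (hlG : ∀ d, l d ≠ 0 → Squarefree d ∧ ∀ p : ℕ, p.Prime → p ∣ d → Sp 0 1 p) (hD1' : 1 ≤ D)
    (hcell : ∀ p ∈ cellP (P1 4) H v, p.Prime ∧ p % 4 = 1 ∧ D < p ∧ A < (p : ℝ) ∧ (p : ℝ) ≤ B)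
    (ρ Err : ℝ) (hErr : 0 ≤ Err)
    (hY : ∀ L : ℕ, Squarefree L → (∀ p : ℕ, p.Prime → p ∣ L → Sp 0 1 p) → L ≤ D ^ 2 →
      |∑ z ∈ (ann 0 1 A B).filter (fun z => L ∣ nm z), FF2 R κ φ z - ρ * gd L| ≤
        Err * hh 3 L) :
    ∑ p ∈ cellP (P1 4) H v, FR R (ph κ (gq p) + φ) / (p : ℝ) ≤
      ρ * (∑ d ∈ Icc 1 D, ∑ e ∈ Icc 1 D, l d * l e * gd (Nat.lcm d e)) +
        Err * (1 + Real.log D) ^ 9 := by
  classical
  have hstep1 : ∑ p ∈ cellP (P1 4) H v, FR R (ph κ (gq p) + φ) / (p : ℝ) ≤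
      ∑ z ∈ ann 0 1 A B, Wl D l (nm z) ^ 2 * FF2 R κ φ z := by
    have hW : ∀ m ∈ cellP (P1 4) H v, Wl D l m = 1 := by
      intro m hm
      unfold Wl
      rw [Finset.sum_eq_single 1]
      · rw [if_pos (one_dvd m), hl1]
      · intro d hd hd1
        rw [mem_Icc] at hd
        by_cases hdm : d ∣ m
        · exfalso
          have h1 := hcell m hm
          rcases (Nat.dvd_prime h1.1).1 hdm with h | h
          · exact hd1 h
          · omega
        · rw [if_neg hdm]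
      · intro h
        exact absurd (Finset.mem_Icc.2 ⟨le_refl 1, hD1'⟩) h
    have hnm : ∀ p ∈ cellP (P1 4) H v, nm (gq p) = p := fun p hp =>
      nm_gq (hcell p hp).1 (hcell p hp).2.1
    have hinj : Set.InjOn gq (↑(cellP (P1 4) H v) : Set ℕ) := by
      intro p hp q hq h
      have h1 := hnm p hp
      have h2 := hnm q hq
      rw [← h1, ← h2, h]
    have h1 : ∑ p ∈ cellP (P1 4) H v, FR R (ph κ (gq p) + φ) / (p : ℝ) =
        ∑ z ∈ (cellP (P1 4) H v).image gq, Wl D l (nm z) ^ 2 * FF2 R κ φ z := by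
      rw [Finset.sum_image hinj]
      refine Finset.sum_congr rfl (fun m hm => ?_)
      unfold FF2
      rw [hnm m hm, hW m hm]
      ring
    rw [h1]
    refine Finset.sum_le_sum_of_subset_of_nonneg ?_ (fun z _ _ => ?_)
    · intro z hz
      rw [mem_image] at hz
      obtain ⟨m, hm, rfl⟩ := hz
      rw [mem_ann hD1, hnm m hm]
      exact ⟨(hcell m hm).1.pos, (hcell m hm).2.2.2.1, (hcell m hm).2.2.2.2⟩
    · exact mul_nonneg (sq_nonneg _) (FF2_nonneg _ _ _ _)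
  set P : Finset (ℕ × ℕ) := Icc 1 D ×ˢ Icc 1 D with hP
  set Y : ℕ → ℝ := fun L => ∑ z ∈ (ann 0 1 A B).filter (fun z => L ∣ nm z), FF2 R κ φ z with hYdef
  have hstep2 : ∑ z ∈ ann 0 1 A B, Wl D l (nm z) ^ 2 * FF2 R κ φ z =
      ∑ x ∈ P, l x.1 * l x.2 * Y (Nat.lcm x.1 x.2) := by
    have h1 : ∀ z ∈ ann 0 1 A B, Wl D l (nm z) ^ 2 * FF2 R κ φ z =
        ∑ x ∈ P, l x.1 * l x.2 * (if Nat.lcm x.1 x.2 ∣ nm z then FF2 R κ φ z else 0) := by
      intro z _
      rw [Wl_sq D l, Finset.sum_mul]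
      refine Finset.sum_congr rfl (fun x _ => ?_)
      split_ifs <;> ring
    rw [Finset.sum_congr rfl h1, Finset.sum_comm]
    refine Finset.sum_congr rfl (fun x _ => ?_)
    rw [← Finset.mul_sum, ← Finset.sum_filter]
  have h30 : (0 : ℝ) ≤ 3 := by norm_num
  have hstep3 : ∑ x ∈ P, l x.1 * l x.2 * Y (Nat.lcm x.1 x.2) ≤
      ∑ x ∈ P, (ρ * (l x.1 * l x.2 * gd (Nat.lcm x.1 x.2)) +
        (if Squarefree x.1 ∧ Squarefree x.2 then Err * hh 3 (Nat.lcm x.1 x.2) else 0)) := by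
    refine Finset.sum_le_sum (fun x hx => ?_)
    rw [hP, mem_product, mem_Icc, mem_Icc] at hx
    have hr0 : 0 ≤ (if Squarefree x.1 ∧ Squarefree x.2 then Err * hh 3 (Nat.lcm x.1 x.2)
        else 0) := by
      split_ifs
      · exact mul_nonneg hErr (hh_nonneg h30 _)
      · exact le_rfl
    by_cases h1 : l x.1 = 0
    · rw [h1]
      simpa using hr0
    by_cases h2 : l x.2 = 0
    · rw [h2]
      simpa using hr0
    obtain ⟨g1, g2⟩ := hlG x.1 h1
    obtain ⟨g3, g4⟩ := hlG x.2 h2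
    rw [if_pos ⟨g1, g3⟩]
    have hL1 := lcm_squarefree g1 g3
    have hL2 : ∀ p : ℕ, p.Prime → p ∣ Nat.lcm x.1 x.2 → Sp 0 1 p := by
      intro p hp hpd
      have h3 : p ∣ x.1 * x.2 := hpd.trans (Nat.lcm_dvd_mul _ _)
      rcases hp.dvd_mul.1 h3 with h | h
      · exact g2 p hp h
      · exact g4 p hp h
    have hL3 : Nat.lcm x.1 x.2 ≤ D ^ 2 := by
      refine le_trans (Nat.lcm_le_mul (by omega) (by omega)) ?_
      rw [sq]
      exact Nat.mul_le_mul hx.1.2 hx.2.2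
    have h3 := hY _ hL1 hL2 hL3
    have h4 : |l x.1 * l x.2| ≤ 1 := by
      rw [abs_mul]
      exact mul_le_one₀ (hl _) (abs_nonneg _) (hl _)
    have h5 : l x.1 * l x.2 * (Y (Nat.lcm x.1 x.2) - ρ * gd (Nat.lcm x.1 x.2)) ≤
        Err * hh 3 (Nat.lcm x.1 x.2) := by
      refine le_trans (le_abs_self _) ?_
      rw [abs_mul]
      calc |l x.1 * l x.2| * |Y (Nat.lcm x.1 x.2) - ρ * gd (Nat.lcm x.1 x.2)|
          ≤ 1 * |Y (Nat.lcm x.1 x.2) - ρ * gd (Nat.lcm x.1 x.2)| :=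
            mul_le_mul_of_nonneg_right h4 (abs_nonneg _)
        _ ≤ _ := by rw [one_mul]; exact h3
    have h6 : l x.1 * l x.2 * Y (Nat.lcm x.1 x.2) =
        ρ * (l x.1 * l x.2 * gd (Nat.lcm x.1 x.2)) +
          l x.1 * l x.2 * (Y (Nat.lcm x.1 x.2) - ρ * gd (Nat.lcm x.1 x.2)) := by ring
    rw [h6]
    linarith
  have hstep4 : ∑ x ∈ P, (ρ * (l x.1 * l x.2 * gd (Nat.lcm x.1 x.2)) +
        (if Squarefree x.1 ∧ Squarefree x.2 then Err * hh 3 (Nat.lcm x.1 x.2) else 0)) =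
      ρ * (∑ d ∈ Icc 1 D, ∑ e ∈ Icc 1 D, l d * l e * gd (Nat.lcm d e)) +
        Err * ∑ x ∈ P.filter (fun x => Squarefree x.1 ∧ Squarefree x.2),
          hh 3 (Nat.lcm x.1 x.2) := by
    rw [Finset.sum_add_distrib, ← Finset.mul_sum, ← Finset.sum_filter, ← Finset.mul_sum, hP,
      Finset.sum_product]
  calc _ ≤ _ := hstep1
    _ = _ := hstep2
    _ ≤ _ := hstep3
    _ = _ := hstep4
    _ ≤ _ := by
        have h1 := mul_le_mul_of_nonneg_left (sum_lcm_hh D) hErr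
        linarith

end Pool.Agent.N897.MS.Sel2
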